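import Pool.Agent.Y105.RS.StmC
import Pool.Agent.Y759.RS.Qr

/-!
Project RS, part 2: quasirandomness for weighted words.
-/

set_option autoImplicit false

namespace Pool.Agent.Y433.RS

open Finset Equiv Pool.Agent.Y105.RS Pool.Agent.Y759.RS

variable {V : Type} [Fintype V] [DecidableEq V]

theorem pointwise (W W' X θ B : ℝ) (h0 : 0 ≤ W) (h1 : W ≤ W') (hθ : 0 < θ) :
    θ * (W * X) ≤ W' * (Real.exp (-B) * (1 + Real.exp (θ * X)) + (B - 1)) := by
  have hW' : 0 ≤ W' := h0.trans h1
  have hB := Real.add_one_le_exp (-B)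
  rcases le_total 0 X with hX | hX
  · have h2 : θ * (W * X) ≤ W' * (θ * X) := by
      have : 0 ≤ θ * X := by positivity
      nlinarith
    have h3 : θ * X ≤ Real.exp (-B) * (1 + Real.exp (θ * X)) + (B - 1) := by
      have h4 := Real.add_one_le_exp (-B + θ * X)
      rw [Real.exp_add] at h4
      have h5 := Real.exp_pos (-B)
      nlinarith
    exact h2.trans (mul_le_mul_of_nonneg_left h3 hW')
  · have h2 : θ * (W * X) ≤ 0 := by
      have : W * X ≤ 0 := mul_nonpos_of_nonneg_of_nonpos h0 hX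
      nlinarith
    refine h2.trans (mul_nonneg hW' ?_)
    have h5 : 0 ≤ Real.exp (-B) * Real.exp (θ * X) := by positivity
    nlinarith

/-- the basic bound for a parameter `θ` -/
theorem upperw_theta (hI : S_ITER) [Nonempty V] {p r : V → V → ℝ} {κ τ : ℝ} (hp : Wt p)
    (hr : Ker r κ) (hτ : 0 ≤ τ) (hC : Cmp p r τ) {m M : ℕ} (hm : 2 ≤ m)
    {T : Type} [Fintype T] [Nonempty T] (h : T → Fin m → Fin m → ℝ)
    (hs : ∀ t a b, h t a b = h t b a) (hb : ∀ t a b, |h t a b| ≤ 1)
    (W W' : (Fin M → Lt V) → ℝ) (b : ℝ) (hW : ∀ w, 0 ≤ W w) (hWW : ∀ w, W w ≤ W' w)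
    (hb0 : 0 ≤ b) (hWb : ∀ w, W' w ≤ Real.exp b * mean p M W')
    (t : (Fin M → Lt V) → T) (c : (Fin M → Lt V) → V → Fin m) (θ : ℝ) (hθ : 0 < θ)
    (hθ2 : θ ≤ 1 / 2) (hκ : 0 ≤ κ) :
    θ * mean p M (fun w => W w * XX p r (h (t w)) (c w) w) ≤
      (3 * (Fintype.card V * Real.log m + Real.log (Fintype.card T) + b) +
        M * (2 * ((1 + 8 * τ) * θ ^ 2 + 2 * κ * θ))) * mean p M W' := by
  have hm0 : (0 : ℝ) < m := by exact_mod_cast (show 0 < m by omega)
  have hT0 : (0 : ℝ) < Fintype.card T := by exact_mod_cast Fintype.card_pos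
  have hT1 : (1 : ℝ) ≤ Fintype.card T := by exact_mod_cast Fintype.card_pos
  have hV1 : (1 : ℝ) ≤ Fintype.card V := by exact_mod_cast Fintype.card_pos
  have hρ : rho κ τ θ = 2 * ((1 + 8 * τ) * θ ^ 2 + 2 * κ * θ) := by
    unfold rho
    rw [abs_of_pos hθ]
  have hρ0 : 0 ≤ rho κ τ θ := by
    rw [hρ]
    positivity
  have hW'0 : ∀ w, 0 ≤ W' w := fun w => (hW w).trans (hWW w)
  have hμ0 : 0 ≤ mean p M W' := by
    unfold mean
    exact Finset.sum_nonneg fun w _ => mul_nonneg (wgt_nn hp w) (hW'0 w)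
  set μ : ℝ := mean p M W' with hμ
  set E : ℝ := Fintype.card T * (2 * (m : ℝ) ^ Fintype.card V * (1 + rho κ τ θ) ^ M) with hE
  have hE0 : 0 < E := by positivity
  have hm1 : (1 : ℝ) ≤ (m : ℝ) ^ Fintype.card V := by
    apply one_le_pow₀
    exact_mod_cast (show 1 ≤ m by omega)
  have hρ1 : (1 : ℝ) ≤ (1 + rho κ τ θ) ^ M := one_le_pow₀ (by linarith)
  have hE1 : 1 ≤ E := by
    rw [hE]
    have h1 : (1 : ℝ) ≤ (m : ℝ) ^ Fintype.card V * (1 + rho κ τ θ) ^ M := by
      calc (1 : ℝ) = 1 * 1 := by ring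
        _ ≤ _ := mul_le_mul hm1 hρ1 (by norm_num) (by linarith)
    calc (1 : ℝ) = 1 * 1 := by ring
      _ ≤ _ := mul_le_mul hT1 (by linarith) (by norm_num) (by linarith)
  have h1 : mean p M (fun w => Real.exp (θ * XX p r (h (t w)) (c w) w)) ≤ E := by
    have h2 : mean p M (fun w => Real.exp (θ * XX p r (h (t w)) (c w) w)) ≤
        mean p M (fun w => ∑ s : T, ∑ d : V → Fin m, Real.exp (θ * XX p r (h s) d w)) := by
      refine mean_mono hp fun w => ?_
      refine le_trans ?_ (Finset.single_le_sum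
        (f := fun s : T => ∑ d : V → Fin m, Real.exp (θ * XX p r (h s) d w))
        (fun s _ => Finset.sum_nonneg fun d _ => (Real.exp_pos _).le) (Finset.mem_univ (t w)))
      exact Finset.single_le_sum
        (f := fun d : V → Fin m => Real.exp (θ * XX p r (h (t w)) d w))
        (fun d _ => (Real.exp_pos _).le) (Finset.mem_univ (c w))
    refine h2.trans ?_
    rw [mean_sum]
    have h3 : ∀ s ∈ (univ : Finset T), mean p M (fun w => ∑ d : V → Fin m,
        Real.exp (θ * XX p r (h s) d w)) ≤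
        2 * (m : ℝ) ^ Fintype.card V * (1 + rho κ τ θ) ^ M := by
      intro s _
      rw [mean_sum]
      exact hI V p r κ τ hp hr hτ hC m (h s) (hs s) (hb s) θ (by rwa [abs_of_pos hθ]) M
    refine (Finset.sum_le_sum h3).trans (le_of_eq ?_)
    rw [Finset.sum_const, Finset.card_univ, nsmul_eq_mul]
  set B : ℝ := Real.log (1 + Real.exp b * E) with hB
  have hEB0 : 0 < 1 + Real.exp b * E := by positivity
  have h4 : θ * mean p M (fun w => W w * XX p r (h (t w)) (c w) w) ≤ B * μ := by
    have h5 : θ * mean p M (fun w => W w * XX p r (h (t w)) (c w) w) ≤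
        mean p M (fun w => (Real.exp (-B) * (Real.exp b * μ)) *
          Real.exp (θ * XX p r (h (t w)) (c w) w) + (Real.exp (-B) + (B - 1)) * W' w) := by
      rw [← mean_mul]
      refine mean_mono hp fun w => ?_
      have h6 := pointwise (W w) (W' w) (XX p r (h (t w)) (c w) w) θ B (hW w) (hWW w) hθ
      refine h6.trans ?_
      have h7 : W' w * (Real.exp (-B) * Real.exp (θ * XX p r (h (t w)) (c w) w)) ≤
          (Real.exp b * μ) * (Real.exp (-B) * Real.exp (θ * XX p r (h (t w)) (c w) w)) :=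
        mul_le_mul_of_nonneg_right (hWb w) (by positivity)
      linarith
    rw [mean_add, mean_mul, mean_mul] at h5
    have h7 : Real.exp (-B) * (1 + Real.exp b * E) = 1 := by
      rw [Real.exp_neg, hB, Real.exp_log hEB0]
      exact inv_mul_cancel₀ hEB0.ne'
    have h8 : (Real.exp (-B) * (Real.exp b * μ)) *
        mean p M (fun w => Real.exp (θ * XX p r (h (t w)) (c w) w)) ≤
        (Real.exp (-B) * (Real.exp b * μ)) * E := mul_le_mul_of_nonneg_left h1 (by positivity)
    rw [← hμ] at h5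
    have h9 : (Real.exp (-B) * (Real.exp b * μ)) * E + (Real.exp (-B) + (B - 1)) * μ = B * μ := by
      have : (Real.exp (-B) * (Real.exp b * μ)) * E + (Real.exp (-B) + (B - 1)) * μ =
        (Real.exp (-B) * (1 + Real.exp b * E)) * μ + (B - 1) * μ := by ring
      rw [this, h7]
      ring
    linarith
  have h8 : Real.log E = Real.log (Fintype.card T) + (Real.log 2 +
      Fintype.card V * Real.log m + M * Real.log (1 + rho κ τ θ)) := by
    rw [hE, Real.log_mul hT0.ne' (by positivity), Real.log_mul (by positivity) (by positivity),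
      Real.log_mul (by norm_num) (by positivity), Real.log_pow, Real.log_pow]
  have h9 : Real.log (1 + rho κ τ θ) ≤ rho κ τ θ := by
    have := Real.log_le_sub_one_of_pos (show 0 < 1 + rho κ τ θ by linarith)
    linarith
  have h10 : Real.log 2 ≤ Fintype.card V * Real.log m := by
    have h11 : Real.log 2 ≤ Real.log m :=
      Real.log_le_log (by norm_num) (by exact_mod_cast hm)
    have h12 : 0 ≤ Real.log m := le_trans (Real.log_nonneg (by norm_num)) h11
    nlinarith
  have h13 : 0 ≤ Real.log (Fintype.card T) := Real.log_nonneg hT1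
  have h14 : (M : ℝ) * Real.log (1 + rho κ τ θ) ≤ M * rho κ τ θ :=
    mul_le_mul_of_nonneg_left h9 (Nat.cast_nonneg _)
  have h15 : B ≤ Real.log 2 + (b + Real.log E) := by
    have h16 : 1 ≤ Real.exp b * E := by
      have := Real.one_le_exp hb0
      nlinarith
    rw [hB]
    calc Real.log (1 + Real.exp b * E) ≤ Real.log (2 * (Real.exp b * E)) :=
          Real.log_le_log hEB0 (by linarith)
      _ = _ := by
        rw [Real.log_mul (by norm_num) (by positivity), Real.log_mul (by positivity) hE0.ne',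
          Real.log_exp]
  rw [hρ] at h14
  rw [hρ] at h8
  refine h4.trans (mul_le_mul_of_nonneg_right ?_ hμ0)
  linarith

theorem upperw (hI : S_ITER) [Nonempty V] {p r : V → V → ℝ} {κ τ : ℝ} (hp : Wt p)
    (hr : Ker r κ) (hτ : 0 ≤ τ) (hC : Cmp p r τ) {m M : ℕ} (hm : 2 ≤ m) (hM : 1 ≤ M)
    {T : Type} [Fintype T] [Nonempty T] (h : T → Fin m → Fin m → ℝ)
    (hs : ∀ t a b, h t a b = h t b a) (hb : ∀ t a b, |h t a b| ≤ 1)
    (W W' : (Fin M → Lt V) → ℝ) (b : ℝ) (hW : ∀ w, 0 ≤ W w) (hWW : ∀ w, W w ≤ W' w)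
    (hb0 : 0 ≤ b) (hWb : ∀ w, W' w ≤ Real.exp b * mean p M W')
    (t : (Fin M → Lt V) → T) (c : (Fin M → Lt V) → V → Fin m) :
    mean p M (fun w => W w * (XX p r (h (t w)) (c w) w / M)) ≤
      (20 * Real.sqrt ((1 + τ) *
        (Fintype.card V * Real.log m + Real.log (Fintype.card T) + b) / M) + 4 * κ) *
          mean p M W' := by
  obtain ⟨v⟩ := (inferInstance : Nonempty V)
  have hκ : 0 ≤ κ := (hr.nn v v).trans (hr.le v v)
  have hM0 : (0 : ℝ) < M := by exact_mod_cast (show 0 < M by omega)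
  have hW'0 : ∀ w, 0 ≤ W' w := fun w => (hW w).trans (hWW w)
  have hμ0 : 0 ≤ mean p M W' := by
    unfold mean
    exact Finset.sum_nonneg fun w _ => mul_nonneg (wgt_nn hp w) (hW'0 w)
  set H : ℝ := Fintype.card V * Real.log m + Real.log (Fintype.card T) + b with hH
  have hT1 : (1 : ℝ) ≤ Fintype.card T := by exact_mod_cast Fintype.card_pos
  have hV1 : (1 : ℝ) ≤ Fintype.card V := by
    exact_mod_cast Fintype.card_pos
  have hH0 : 0 < H := by
    have h11 : Real.log 2 ≤ Real.log m :=
      Real.log_le_log (by norm_num) (by exact_mod_cast hm)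
    have h12 : 0 < Real.log m := lt_of_lt_of_le (Real.log_pos (by norm_num)) h11
    have h13 : 0 ≤ Real.log (Fintype.card T) := Real.log_nonneg hT1
    have h14 : 0 < Fintype.card V * Real.log m := by positivity
    linarith
  have hdiv : mean p M (fun w => W w * (XX p r (h (t w)) (c w) w / M)) =
      mean p M (fun w => W w * XX p r (h (t w)) (c w) w) / M := by
    have h1 : (fun w => W w * (XX p r (h (t w)) (c w) w / (M : ℝ))) =
        fun w => (M : ℝ)⁻¹ * (W w * XX p r (h (t w)) (c w) w) := by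
      funext w
      rw [div_eq_inv_mul]
      ring
    rw [h1, mean_mul, div_eq_inv_mul]
  set θ : ℝ := Real.sqrt (H / (M * (1 + τ))) with hθdef
  have hθ0 : 0 < θ := Real.sqrt_pos.2 (by positivity)
  have hθsq : θ ^ 2 = H / (M * (1 + τ)) := Real.sq_sqrt (by positivity)
  have hroot : Real.sqrt ((1 + τ) * H / M) = (1 + τ) * θ := by
    have h1 : (1 + τ) * H / M = ((1 + τ) * θ) ^ 2 := by
      rw [mul_pow, hθsq]
      field_simp
    rw [h1, Real.sqrt_sq (by positivity)]
  rw [hroot]
  by_cases hθ2 : θ ≤ 1 / 2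
  · have h2 := upperw_theta hI hp hr hτ hC hm h hs hb W W' b hW hWW hb0 hWb t c θ hθ0 hθ2 hκ
    rw [hdiv, div_le_iff₀ hM0]
    have h3 : H = θ ^ 2 * (M * (1 + τ)) := by
      rw [hθsq]
      field_simp
    rw [← hH, h3] at h2
    have h4 : θ * mean p M (fun w => W w * XX p r (h (t w)) (c w) w) ≤
        θ * ((20 * ((1 + τ) * θ) + 4 * κ) * mean p M W' * M) := by
      refine h2.trans ?_
      have h5 : 0 ≤ θ ^ 2 * M * τ := by positivity
      have h6 : 0 ≤ θ ^ 2 * M := by positivity
      have h7 : 3 * (θ ^ 2 * (M * (1 + τ))) + M * (2 * ((1 + 8 * τ) * θ ^ 2 + 2 * κ * θ)) ≤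
          θ * ((20 * ((1 + τ) * θ) + 4 * κ) * M) := by nlinarith
      calc _ ≤ θ * ((20 * ((1 + τ) * θ) + 4 * κ) * M) * mean p M W' :=
            mul_le_mul_of_nonneg_right h7 hμ0
        _ = _ := by ring
    exact le_of_mul_le_mul_left h4 hθ0
  · have h2 : mean p M (fun w => W w * (XX p r (h (t w)) (c w) w / M)) ≤
        mean p M (fun w => 2 * W' w) := by
      refine mean_mono hp fun w => ?_
      have h3 : XX p r (h (t w)) (c w) w / M ≤ 2 := by
        rw [div_le_iff₀ hM0]
        exact (le_abs_self _).trans (XX_abs hp hr (h (t w)) (hb (t w)) (c w) w)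
      have h4 := hW w
      have h5 := hWW w
      nlinarith
    rw [mean_mul] at h2
    have h3 : 1 / 2 < θ := not_le.1 hθ2
    refine h2.trans (mul_le_mul_of_nonneg_right ?_ hμ0)
    nlinarith

/-- RS-QRW -/
theorem qrw (hI : S_ITER) : S_QRW := by
  intro V _ _ _ p r κ τ hp hr hτ hC m M hm hM T _ _ h hs hb W W' b hW hWW hb0 hWb t c
  have h1 := upperw hI hp hr hτ hC hm hM h hs hb W W' b hW hWW hb0 hWb t c
  have h2 := upperw hI hp hr hτ hC hm hM (fun s a b => -h s a b)
    (fun s a b => by rw [hs s a b]) (fun s a b => by rw [abs_neg]; exact hb s a b)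
    W W' b hW hWW hb0 hWb t c
  have h3 : mean p M (fun w => W w * (XX p r (fun a b => -h (t w) a b) (c w) w / M)) =
      -mean p M (fun w => W w * (XX p r (h (t w)) (c w) w / M)) := by
    have h4 : (fun w => W w * (XX p r (fun a b => -h (t w) a b) (c w) w / (M : ℝ))) =
        fun w => (-1) * (W w * (XX p r (h (t w)) (c w) w / M)) := by
      funext w
      rw [XX_neg]
      ring
    rw [h4, mean_mul]
    ring
  rw [h3] at h2
  have h5 : |mean p M (fun w => W w * (XX p r (h (t w)) (c w) w / M))| ≤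
      (20 * Real.sqrt ((1 + τ) *
        (Fintype.card V * Real.log m + Real.log (Fintype.card T) + b) / M) + 4 * κ) *
          mean p M W' := by
    rw [abs_le]
    constructor <;> linarith
  exact h5

end Pool.Agent.Y433.RS
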