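import Pool.Agent.Y105.RS.StmD

/-!
Project RS, part 2: boxes at neighbouring points.
-/

set_option autoImplicit false

namespace Pool.Agent.Y433.RS

open Finset Equiv Pool.Agent.Y105.RS

/-- the shift of a point of the box -/
def shv (L : ℕ) {d s : ℕ} (v : Fin d → Fin s) : Fin d → ZMod L := fun i => ((v i : ℕ) : ZMod L)

theorem card_coord (d n : ℕ) (i : Fin d) (a : Fin (n + 1)) :
    (univ.filter fun v : Fin d → Fin (n + 1) => v i = a).card = (n + 1) ^ (d - 1) := by
  classical
  have h1 : (univ.filter fun v : Fin d → Fin (n + 1) => v i = a) =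
      Fintype.piFinset (fun j => if j = i then {a} else univ) := by
    ext v
    simp only [mem_filter, mem_univ, true_and, Fintype.mem_piFinset]
    constructor
    · intro h j
      by_cases hj : j = i
      · subst hj; simp [h]
      · simp [hj]
    · intro h
      have := h i
      simpa using this
  rw [h1, Fintype.card_piFinset]
  have h2 : ∀ j : Fin d, (if j = i then ({a} : Finset (Fin (n + 1))) else univ).card =
      if j = i then 1 else n + 1 := by
    intro j
    by_cases hj : j = i
    · simp [hj]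
    · simp [hj]
  rw [prod_congr rfl fun j _ => h2 j, prod_ite, prod_const_one, one_mul, prod_const, filter_ne',
    card_erase_of_mem (mem_univ _), card_univ, Fintype.card_fin]

theorem key (d L n : ℕ) [NeZero L] (x : Fin d → ZMod L) (i : Fin d) :
    ∑ z, |bx d L (n + 1) (x + Pi.single i 1) z - bx d L (n + 1) x z| ≤ 2 / ((n + 1 : ℕ) : ℝ) := by
  classical
  set sg : (Fin d → Fin (n + 1)) ≃ (Fin d → Fin (n + 1)) :=
    Equiv.piCongrRight (fun j => if j = i then finRotate (n + 1) else Equiv.refl _) with hsgd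
  have hb : ∀ (u z : Fin d → ZMod L), bx d L (n + 1) u z =
      (∑ v : Fin d → Fin (n + 1), if z = u + shv L v then (1 : ℝ) else 0) /
        ((n + 1 : ℕ) : ℝ) ^ d := by
    intro u z
    simp only [bx, shv]
    congr 1
    rw [card_filter]
    push_cast
    rfl
  have hb2 : ∀ z : Fin d → ZMod L, bx d L (n + 1) x z =
      (∑ v : Fin d → Fin (n + 1), if z = x + shv L (sg v) then (1 : ℝ) else 0) /
        ((n + 1 : ℕ) : ℝ) ^ d := by
    intro z
    rw [hb, Equiv.sum_comp sg (fun v => if z = x + shv L v then (1 : ℝ) else 0)]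
  have hsg : ∀ v : Fin d → Fin (n + 1), v i ≠ Fin.last n →
      x + Pi.single i 1 + shv L v = x + shv L (sg v) := by
    intro v hv
    rw [add_assoc]
    congr 1
    funext j
    rw [Pi.add_apply]
    by_cases hj : j = i
    · subst hj
      have h1 : (sg v) j = finRotate (n + 1) (v j) := by
        simp [hsgd]
      simp only [shv]
      rw [h1, coe_finRotate_of_ne_last hv, Pi.single_eq_same]
      push_cast
      ring
    · have h1 : (sg v) j = v j := by
        simp [hsgd, hj]
      simp only [shv]
      rw [h1, Pi.single_eq_of_ne hj, zero_add]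
  have hpos : (0 : ℝ) < ((n + 1 : ℕ) : ℝ) := by positivity
  have hz : ∀ z : Fin d → ZMod L, |bx d L (n + 1) (x + Pi.single i 1) z - bx d L (n + 1) x z| ≤
      (∑ v : Fin d → Fin (n + 1), |(if z = x + Pi.single i 1 + shv L v then (1 : ℝ) else 0) -
        (if z = x + shv L (sg v) then (1 : ℝ) else 0)|) / ((n + 1 : ℕ) : ℝ) ^ d := by
    intro z
    rw [hb, hb2, ← sub_div, abs_div, abs_of_pos (pow_pos hpos d), ← sum_sub_distrib]
    gcongr
    exact abs_sum_le_sum_abs _ _
  have hv : ∀ v : Fin d → Fin (n + 1),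
      ∑ z : Fin d → ZMod L, |(if z = x + Pi.single i 1 + shv L v then (1 : ℝ) else 0) -
        (if z = x + shv L (sg v) then (1 : ℝ) else 0)| ≤
      if v i = Fin.last n then 2 else 0 := by
    intro v
    by_cases h : v i = Fin.last n
    · rw [if_pos h]
      calc _ ≤ ∑ z : Fin d → ZMod L, ((if z = x + Pi.single i 1 + shv L v then (1 : ℝ) else 0) +
            (if z = x + shv L (sg v) then (1 : ℝ) else 0)) := by
            refine sum_le_sum fun z _ => ?_
            split_ifs <;> norm_num
        _ = 2 := by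
            rw [sum_add_distrib]
            simp
            norm_num
    · rw [if_neg h]
      refine le_of_eq (sum_eq_zero fun z _ => ?_)
      rw [hsg v h, sub_self, abs_zero]
  calc _ ≤ ∑ z : Fin d → ZMod L, (∑ v : Fin d → Fin (n + 1),
        |(if z = x + Pi.single i 1 + shv L v then (1 : ℝ) else 0) -
        (if z = x + shv L (sg v) then (1 : ℝ) else 0)|) / ((n + 1 : ℕ) : ℝ) ^ d :=
        sum_le_sum fun z _ => hz z
    _ = (∑ v : Fin d → Fin (n + 1), ∑ z : Fin d → ZMod L,
        |(if z = x + Pi.single i 1 + shv L v then (1 : ℝ) else 0) -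
        (if z = x + shv L (sg v) then (1 : ℝ) else 0)|) / ((n + 1 : ℕ) : ℝ) ^ d := by
        rw [← sum_div, sum_comm]
    _ ≤ (∑ v : Fin d → Fin (n + 1), if v i = Fin.last n then 2 else 0) /
        ((n + 1 : ℕ) : ℝ) ^ d := by
        gcongr with v _
        exact hv v
    _ = 2 * ((n + 1 : ℕ) : ℝ) ^ (d - 1) / ((n + 1 : ℕ) : ℝ) ^ d := by
        congr 1
        rw [← sum_filter, sum_const, card_coord, nsmul_eq_mul]
        push_cast
        ring
    _ = 2 / ((n + 1 : ℕ) : ℝ) := by
        have hd : d = (d - 1) + 1 := by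
          have := i.pos
          omega
        have h1 : ((n + 1 : ℕ) : ℝ) ^ d = ((n + 1 : ℕ) : ℝ) ^ (d - 1) * ((n + 1 : ℕ) : ℝ) := by
          conv_lhs => rw [hd]
          rw [pow_succ]
        rw [h1, mul_div_mul_comm_aux (pow_pos hpos _).ne']
where
  mul_div_mul_comm_aux {a b : ℝ} (ha : a ≠ 0) : 2 * a / (a * b) = 2 / b := by
    rw [mul_comm a b, mul_div_mul_right _ _ ha]

/-- RS-SHF -/
theorem shf : S_SHF := by
  classical
  intro d L s _ x y hs hn
  obtain ⟨n, rfl⟩ : ∃ n, s = n + 1 := ⟨s - 1, by omega⟩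
  have hor : (∃ i : Fin d, y = x + Pi.single i 1) ∨ (∃ i : Fin d, x = y + Pi.single i 1) := by
    by_contra hcon
    push Not at hcon
    have h1 : (univ.filter fun i : Fin d => y = x + Pi.single i 1) = ∅ :=
      filter_eq_empty_iff.2 fun i _ => hcon.1 i
    have h2 : (univ.filter fun i : Fin d => x = y + Pi.single i 1) = ∅ :=
      filter_eq_empty_iff.2 fun i _ => hcon.2 i
    have h3 : nnR d L x y = 0 := by
      unfold nnR
      rw [h1, h2]
      simp
    linarith
  rcases hor with ⟨i, rfl⟩ | ⟨i, rfl⟩
  · exact key d L n x i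
  · have h := key d L n y i
    refine le_trans (le_of_eq (sum_congr rfl fun z _ => ?_)) h
    exact abs_sub_comm _ _

end Pool.Agent.Y433.RS
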